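import Pool.Agent.Run7.h669.DRefl

/-!
MP_c8df5e_gt, Q1: the `d`-reflection functor preserves arbitrary products.

`IsDSpace`, `IsDReflection` and the notions they use (specialization order, directed sets, suprema)
are defined in `Pool/Agent/Run7/h669/DReflDefs.lean`.  That every space has a `d`-reflection, so that
the hypotheses below can always be met, is `Run7.h669.DRefl.exists_isDReflection`.
-/

namespace Pool.Agent.Results.MP_c8df5e_gt.ArbitraryProducts

open Run7.h669.DRefl

universe u

/-- Let `μ i : X i → Z i` be `d`-reflections, for `i` in an arbitrary index type `I`.  Then the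
product map `∏ X i → ∏ Z i` is a `d`-reflection of `∏ X i`; and every `d`-reflection
`ν : ∏ X i → P` of the product is homeomorphic to `∏ Z i`, by a homeomorphism carrying `ν` to the
product map. -/
theorem result :
    ∀ (I : Type u) (X : I → Type u) [∀ i, TopologicalSpace (X i)]
      (Z : I → Type u) [∀ i, TopologicalSpace (Z i)] (μ : ∀ i, X i → Z i),
      (∀ i, IsDReflection (μ i)) →
        IsDReflection (fun (x : ∀ i, X i) (i : I) => μ i (x i)) ∧
          ∀ (P : Type u) [TopologicalSpace P] (ν : (∀ i, X i) → P), IsDReflection ν →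
            ∃ e : P ≃ₜ (∀ i, Z i), ∀ (x : ∀ i, X i) (i : I), e (ν x) i = μ i (x i) := by
  intro I X _ Z _ μ hμ
  refine ⟨IsDReflection.pi hμ, ?_⟩
  intro P _ ν hν
  obtain ⟨e, he⟩ := (IsDReflection.pi hμ).exists_homeomorph hν
  exact ⟨e, fun x i => congrFun (he x) i⟩

end Pool.Agent.Results.MP_c8df5e_gt.ArbitraryProducts
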